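import Pool.Agent.VCw.FDefs
import Pool.Agent.Helper60.VCM.C2a

/-!
# VCW, module PCE: composition of pieces
-/

set_option autoImplicit false
set_option linter.unusedSectionVars false
set_option linter.unusedVariables false

namespace Pool.Agent.Helper97.LO

open Set Pool.Agent.Helper5 Pool.Agent.Helper5.DU Pool.Agent.Helper6.Str
  Pool.Agent.Helper79.VC Pool.Agent.Helper97.VC Pool.Agent.Helper97.MD Pool.Agent.Helper6.VC

variable {L : FirstOrder.Language.{0, 0}} {M N P : Type} {A Γ : Type}

/-- **Composition of pieces.** The pieces are given by `π`, `π'`; the relations between different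
pieces, and those to the elements of `r`, are determined by the constants `q i` of the pieces. -/
theorem piece_comp (hL : Ar2 L) {S : L.Structure M} {T : L.Structure N} {I : Type} (π : M → I)
    (π' : N → I) {U : Set M} {V : Set N} (q : I → Set (M × N)) (r : Set (M × N))
    (hr : AtEq S T r)
    (Hr : ∀ x ∈ U, ∀ x' ∈ V, π x = π' x' → AtEq S T (insert (x, x') (q (π x))) → ∀ b ∈ r,
      AtEq S T {(x, x'), b})
    (H : ∀ x ∈ U, ∀ x' ∈ V, π x = π' x' → ∀ y ∈ U, ∀ y' ∈ V, π y = π' y' → π x ≠ π y →
      AtEq S T (insert (x, x') (q (π x))) → AtEq S T (insert (y, y') (q (π y))) →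
      AtEq S T {(x, x'), (y, y')}) (γ : Ordinal.{0}) :
    ∀ {p : Set (M × N)}, (∀ a ∈ p, a.1 ∈ U ∧ a.2 ∈ V ∧ π a.1 = π' a.2) →
      (∀ i, BFR S T {a ∈ U | π a = i} {b ∈ V | π' b = i} γ ({a ∈ p | π a.1 = i} ∪ q i)) →
      BFR S T U V γ (p ∪ r) := by
  induction γ using WellFoundedLT.induction with
  | _ γ ih =>
    intro p hp h
    rw [BFR.def]
    refine ⟨?_, fun β hβ => ⟨fun x hx => ?_, fun y hy => ?_⟩⟩
    · refine atEq_of_pairs hL ?_
      have h1 : ∀ a ∈ p, AtEq S T (insert (a.1, a.2) (q (π a.1))) := by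
        intro a ha
        refine AtEq.anti ?_ (h (π a.1)).atEq
        rintro _ (rfl | hb)
        · exact Or.inl ⟨ha, rfl⟩
        · exact Or.inr hb
      have key : ∀ a ∈ p, ∀ b ∈ r, AtEq S T {a, b} := by
        intro a ha b hb
        obtain ⟨a1, a2, a3⟩ := hp a ha
        exact Hr a.1 a1 a.2 a2 a3 (h1 a ha) b hb
      rintro a (ha | ha) b (hb | hb)
      · by_cases hab : π a.1 = π b.1
        · refine AtEq.anti ?_ (h (π a.1)).atEq
          rintro _ (rfl | rfl)
          · exact Or.inl ⟨ha, rfl⟩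
          · exact Or.inl ⟨hb, hab.symm⟩
        · obtain ⟨a1, a2, a3⟩ := hp a ha
          obtain ⟨b1, b2, b3⟩ := hp b hb
          exact H a.1 a1 a.2 a2 a3 b.1 b1 b.2 b2 b3 hab (h1 a ha) (h1 b hb)
      · exact key a ha b hb
      · rw [Set.pair_comm]
        exact key b hb a ha
      · refine AtEq.anti ?_ hr
        rintro _ (rfl | rfl)
        · exact ha
        · exact hb
    · obtain ⟨y, ⟨hyV, hyπ⟩, hy⟩ := (h (π x)).forth hβ (x := x) ⟨hx, rfl⟩
      refine ⟨y, hyV, ?_⟩
      rw [← Set.insert_union]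
      refine ih β hβ ?_ fun i => ?_
      · rintro a (rfl | ha)
        · exact ⟨hx, hyV, hyπ.symm⟩
        · exact hp a ha
      · by_cases hi : π x = i
        · subst hi
          refine BFR.anti ?_ hy
          rintro a (⟨rfl | ha, hai⟩ | ha)
          · exact mem_insert _ _
          · exact mem_insert_of_mem _ (Or.inl ⟨ha, hai⟩)
          · exact mem_insert_of_mem _ (Or.inr ha)
        · refine BFR.anti ?_ ((h i).mono hβ.le)
          rintro a (⟨rfl | ha, hai⟩ | ha)
          · exact absurd hai hi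
          · exact Or.inl ⟨ha, hai⟩
          · exact Or.inr ha
    · obtain ⟨x, ⟨hxU, hxπ⟩, hx⟩ := (h (π' y)).back hβ (y := y) ⟨hy, rfl⟩
      refine ⟨x, hxU, ?_⟩
      rw [← Set.insert_union]
      refine ih β hβ ?_ fun i => ?_
      · rintro a (rfl | ha)
        · exact ⟨hxU, hy, hxπ⟩
        · exact hp a ha
      · by_cases hi : π' y = i
        · subst hi
          refine BFR.anti ?_ hx
          rintro a (⟨rfl | ha, hai⟩ | ha)
          · exact mem_insert _ _
          · exact mem_insert_of_mem _ (Or.inl ⟨ha, hai⟩)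
          · exact mem_insert_of_mem _ (Or.inr ha)
        · refine BFR.anti ?_ ((h i).mono hβ.le)
          rintro a (⟨rfl | ha, hai⟩ | ha)
          · exact absurd (hxπ.symm.trans hai) hi
          · exact Or.inl ⟨ha, hai⟩
          · exact Or.inr ha

end Pool.Agent.Helper97.LO
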