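import Pool.Agent.VCw.FDefs

/-!
# VCW, module CMPc: transfer of finite clique-width
-/

set_option autoImplicit false
set_option linter.unusedSectionVars false
set_option linter.unusedVariables false

namespace Pool.Agent.Helper97.LO

open Set Pool.Agent.Helper5 Pool.Agent.Helper5.DU Pool.Agent.Helper6.Str
  Pool.Agent.Helper79.VC Pool.Agent.Helper97.VC Pool.Agent.Helper97.MD Pool.Agent.Helper6.VC

variable {L : FirstOrder.Language.{0, 0}} {M N P : Type} {A Γ : Type}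

theorem CutIn.mono_set {τ : M → M → A} {X Y V : Set M} {k : ℕ} (h : CutIn τ X V k) (hY : Y ⊆ X) :
    CutIn τ Y V k := by
  obtain ⟨⟨r, hr⟩, s, hs⟩ := h
  exact ⟨⟨r, fun x hx hxV x' hx' hxV' h g hg hgV => hr x (hY hx) hxV x' (hY hx') hxV' h g (hY hg)
    hgV⟩, s, fun x hx hxV x' hx' hxV' h g hg hgV => hs x (hY hx) hxV x' (hY hx') hxV' h g (hY hg)
    hgV⟩

theorem FinCW.mono {τ : M → M → A} {P Q : Set M} {k : ℕ} (h : FinCW τ Q k) (hPQ : P ⊆ Q) :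
    FinCW τ P k := fun F hF => h F (hF.trans hPQ)

theorem FinCW.comap {M' A' : Type} {τ : M → M → A} {τ' : M' → M' → A'} (Φ : A → A')
    {e : M' → M} (he : Function.Injective e) (h : ∀ x y, x ≠ y → τ' x y = Φ (τ (e x) (e y)))
    {P : Set M'} {k : ℕ} (hF : FinCW τ (e '' P) k) : FinCW τ' P k := by
  classical
  intro F hFP hne
  let ε : M' ↪ M := ⟨e, he⟩
  have hm : ∀ (Y : Finset M') (y : M'), e y ∈ Y.map ε ↔ y ∈ Y := by
    intro Y y
    rw [Finset.mem_map]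
    exact ⟨fun ⟨z, hz, hzy⟩ => he hzy ▸ hz, fun hy => ⟨y, hy, rfl⟩⟩
  obtain ⟨T, hT1, hT2⟩ := hF (F.map ε) (by
    intro x hx
    obtain ⟨y, hy, rfl⟩ := Finset.mem_map.1 (Finset.mem_coe.1 hx)
    exact ⟨y, hFP hy, rfl⟩) hne.map
  refine ⟨{Y | Y.map ε ∈ T}, hT1, ?_⟩
  intro Y hY
  obtain ⟨h1, h2, ⟨⟨r, hr⟩, s, hs⟩, h4⟩ := hT2 _ hY
  have hYF : Y ⊆ F := Finset.map_subset_map.1 h2
  refine ⟨Finset.map_nonempty.1 h1, hYF, ⟨⟨fun x => r (e x), ?_⟩, fun x => s (e x), ?_⟩, ?_⟩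
  · intro x hx hxY x' hx' hxY' hrr g hg hgY
    have hgx : x ≠ g := fun hh => hgY (hh ▸ hxY)
    have hgx' : x' ≠ g := fun hh => hgY (hh ▸ hxY')
    rw [h x g hgx, h x' g hgx']
    rw [hr (e x) (Finset.mem_coe.2 ((hm _ _).2 hx)) (Finset.mem_coe.2 ((hm _ _).2 hxY)) (e x')
      (Finset.mem_coe.2 ((hm _ _).2 hx')) (Finset.mem_coe.2 ((hm _ _).2 hxY')) hrr (e g)
      (Finset.mem_coe.2 ((hm _ _).2 hg)) (fun hh => hgY ((hm _ _).1 (Finset.mem_coe.1 hh)))]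
  · intro g hg hgY g' hg' hgY' hrr x hx hxY
    have hgx : x ≠ g := fun hh => hgY (hh ▸ hxY)
    have hgx' : x ≠ g' := fun hh => hgY' (hh ▸ hxY)
    rw [h x g hgx, h x g' hgx']
    rw [hs (e g) (Finset.mem_coe.2 ((hm _ _).2 hg)) (fun hh => hgY ((hm _ _).1
      (Finset.mem_coe.1 hh))) (e g') (Finset.mem_coe.2 ((hm _ _).2 hg')) (fun hh => hgY' ((hm _ _).1
      (Finset.mem_coe.1 hh))) hrr (e x) (Finset.mem_coe.2 ((hm _ _).2 hx))
      (Finset.mem_coe.2 ((hm _ _).2 hxY))]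
  · intro hcard
    obtain ⟨Z₁, hZ₁, Z₂, hZ₂, hdis, hun⟩ := h4 (by rwa [Finset.card_map])
    have hpre : ∀ Z : Finset M, (∀ x ∈ Z, x ∈ Y.map ε) → ∃ W : Finset M', W.map ε = Z := by
      intro Z hZ
      refine ⟨Y.filter fun y => e y ∈ Z, ?_⟩
      ext x
      rw [Finset.mem_map]
      constructor
      · rintro ⟨y, hy, rfl⟩
        exact (Finset.mem_filter.1 hy).2
      · intro hx
        obtain ⟨y, hy, rfl⟩ := Finset.mem_map.1 (hZ x hx)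
        exact ⟨y, Finset.mem_filter.2 ⟨hy, hx⟩, rfl⟩
    obtain ⟨W₁, rfl⟩ := hpre Z₁ fun x hx => (hun x).2 (Or.inl hx)
    obtain ⟨W₂, rfl⟩ := hpre Z₂ fun x hx => (hun x).2 (Or.inr hx)
    refine ⟨W₁, hZ₁, W₂, hZ₂, (Finset.disjoint_map ε).1 hdis, fun x => ?_⟩
    have := hun (e x)
    rwa [hm, hm, hm] at this

theorem FinCW.of_inj {τ : M → M → A} {τ' : N → N → A} {k : ℕ} {P : Set M}
    (h : FinCW τ P k) {e : N → M} (he : Function.Injective e) {Q : Set N}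
    (hQ : e '' Q ⊆ P) (h' : ∀ x y, x ≠ y → τ' x y = τ (e x) (e y)) : FinCW τ' Q k :=
  FinCW.comap id he h' (h.mono hQ)

end Pool.Agent.Helper97.LO
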