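import Pool.Agent.VB.G

/-!
# Clique-width: definitions
-/

set_option autoImplicit false
set_option linter.unusedSectionVars false
set_option linter.unusedVariables false

namespace Pool.Agent.Helper97.LO

open Set Pool.Agent.Helper5.DU Pool.Agent.Helper6.Str Pool.Agent.Helper79.VC
  Pool.Agent.Helper97.VC Pool.Agent.Helper97.MD

variable {L : FirstOrder.Language.{0, 0}} {M N P : Type} {A Γ : Type}

/-- The elements of `X ∩ V` have at most `k` different rows over `X \ V`, and the elements of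
`X \ V` have at most `k` different columns over `X ∩ V`. -/
def CutIn (τ : M → M → A) (X V : Set M) (k : ℕ) : Prop :=
  (∃ r : M → Fin k, ∀ x ∈ X, x ∈ V → ∀ x' ∈ X, x' ∈ V → r x = r x' →
    ∀ g ∈ X, g ∉ V → τ x g = τ x' g) ∧
  ∃ r : M → Fin k, ∀ g ∈ X, g ∉ V → ∀ g' ∈ X, g' ∉ V → r g = r g' →
    ∀ x ∈ X, x ∈ V → τ x g = τ x g'

/-- **Finite clique-width.** Every nonempty finite `F ⊆ P` can be split recursively into two parts,
down to single elements, such that each part `Y` which occurs has at most `k` different rows and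
columns inside `F`. -/
def FinCW (τ : M → M → A) (P : Set M) (k : ℕ) : Prop :=
  ∀ F : Finset M, (F : Set M) ⊆ P → F.Nonempty → ∃ T : Set (Finset M), F ∈ T ∧
    ∀ Y ∈ T, Y.Nonempty ∧ Y ⊆ F ∧ CutIn τ (F : Set M) (Y : Set M) k ∧
      (2 ≤ Y.card → ∃ Y₁ ∈ T, ∃ Y₂ ∈ T, Disjoint Y₁ Y₂ ∧ ∀ x, x ∈ Y ↔ x ∈ Y₁ ∨ x ∈ Y₂)

/-- the infinite primitive subsets are sparse up to a background type, or of finite
clique-width -/
def SpCWPrim (S : L.Structure M) : Prop :=
  ∀ P : Set M, P.Infinite → IsPrim (bt S) P →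
    (∃ b : Set (L.Relations 2), ¬ HasTK (gr S P b)) ∨ ∃ k, FinCW (bt S) P k

/-- the points are `k`-cuts, and every nonempty finite set has a binary decomposition all of whose
parts are traces of `k`-cuts of the whole structure -/
def CTree (τ : M → M → A) (k : ℕ) : Prop :=
  (∀ y, CutK τ {y} k) ∧
  ∀ F : Finset M, F.Nonempty → ∃ T : Set (Finset M), F ∈ T ∧
    (∀ Y ∈ T, ∃ C : Set M, CutK τ C k ∧ ∀ x ∈ F, x ∈ C ↔ x ∈ Y) ∧
    ∀ Y ∈ T, Y.Nonempty ∧ Y ⊆ F ∧ (2 ≤ Y.card → ∃ Y₁ ∈ T, ∃ Y₂ ∈ T,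
      Disjoint Y₁ Y₂ ∧ ∀ x, x ∈ Y ↔ x ∈ Y₁ ∨ x ∈ Y₂)

end Pool.Agent.Helper97.LO
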