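import Pool.Agent.VCw.FDefs

/-!
# VCW, module CTRc: compactness
-/

set_option autoImplicit false
set_option linter.unusedSectionVars false
set_option linter.unusedVariables false

namespace Pool.Agent.Helper97.LO

open Set Pool.Agent.Helper5 Pool.Agent.Helper5.DU Pool.Agent.Helper6.Str
  Pool.Agent.Helper79.VC Pool.Agent.Helper97.VC Pool.Agent.Helper97.MD Pool.Agent.Helper6.VC

variable {L : FirstOrder.Language.{0, 0}} {M N P : Type} {A Γ : Type}

/-- a set all of whose finite parts are traces of `k`-cuts is a `k`-cut -/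
theorem cutK_of_fin_traces {τ : M → M → A} {k : ℕ} (hk : Nonempty M → 0 < k) {C : Set M}
    (H : ∀ G : Finset M, ∃ F V : Set M, (G : Set M) ⊆ F ∧ CutIn τ F V k ∧
      ∀ x ∈ G, x ∈ C ↔ x ∈ V) : CutK τ C k := by
  classical
  rcases isEmpty_or_nonempty M with hM | hM
  · exact ⟨⟨fun x => (hM.false x).elim, fun x => (hM.false x).elim⟩,
      fun x => (hM.false x).elim, fun x => (hM.false x).elim⟩
  have h0 : Nonempty (Fin k) := ⟨⟨0, hk hM⟩⟩
  obtain ⟨U, hU⟩ : ∃ U : Ultrafilter (Finset M), (U : Filter (Finset M)) ≤ Filter.atTop :=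
    ⟨Ultrafilter.of Filter.atTop, Ultrafilter.of_le _⟩
  have hev : ∀ G : Finset M, ∀ᶠ F in (U : Filter (Finset M)), G ⊆ F := fun G =>
    hU (Filter.eventually_ge_atTop G)
  have hevx : ∀ x : M, ∀ᶠ F in (U : Filter (Finset M)), x ∈ F := fun x => by
    filter_upwards [hev {x}] with F hF
    exact hF (Finset.mem_singleton_self x)
  have hlim : ∀ r : Finset M → M → Fin k, ∃ R : M → Fin k, ∀ x,
      ∀ᶠ G in (U : Filter (Finset M)), r G x = R x := by
    intro r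
    have : ∀ x, ∃ i : Fin k, ∀ᶠ G in (U : Filter (Finset M)), r G x = i := by
      intro x
      obtain ⟨i, hi⟩ := (U.map fun G => r G x).eq_pure_of_finite
      refine ⟨i, ?_⟩
      have h1 : {j | j = i} ∈ (U.map fun G => r G x) := by
        rw [hi]; exact rfl
      exact h1
    choose R hR using this
    exact ⟨R, hR⟩
  constructor
  · have h1 : ∀ G : Finset M, ∃ r : M → Fin k, ∀ x ∈ G, x ∈ C → ∀ x' ∈ G, x' ∈ C →
        r x = r x' → ∀ g ∈ G, g ∉ C → τ x g = τ x' g := by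
      intro G
      obtain ⟨F, V, hGF, ⟨⟨r, hr⟩, -⟩, hV⟩ := H G
      exact ⟨r, fun x hx hxC x' hx' hxC' hh g hg hgC => hr x (hGF hx) ((hV x hx).1 hxC) x' (hGF hx')
        ((hV x' hx').1 hxC') hh g (hGF hg) (fun h => hgC ((hV g hg).2 h))⟩
    choose r hr using h1
    obtain ⟨R, hR⟩ := hlim r
    refine ⟨R, fun x hx x' hx' hxx g hg => ?_⟩
    obtain ⟨G, e1, e2, e3, e4, e5⟩ :=
      ((hR x).and ((hR x').and ((hevx x).and ((hevx x').and (hevx g))))).exists
    exact hr G x e3 hx x' e4 hx' (by rw [e1, e2, hxx]) g e5 hg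
  · have h1 : ∀ G : Finset M, ∃ r : M → Fin k, ∀ g ∈ G, g ∉ C → ∀ g' ∈ G, g' ∉ C →
        r g = r g' → ∀ x ∈ G, x ∈ C → τ x g = τ x g' := by
      intro G
      obtain ⟨F, V, hGF, ⟨-, r, hr⟩, hV⟩ := H G
      exact ⟨r, fun g hg hgC g' hg' hgC' hh x hx hxC => hr g (hGF hg) (fun h => hgC ((hV g hg).2 h))
        g' (hGF hg') (fun h => hgC' ((hV g' hg').2 h)) hh x (hGF hx) ((hV x hx).1 hxC)⟩
    choose r hr using h1
    obtain ⟨R, hR⟩ := hlim r
    refine ⟨R, fun g hg g' hg' hgg x hx => ?_⟩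
    obtain ⟨G, e1, e2, e3, e4, e5⟩ :=
      ((hR g).and ((hR g').and ((hevx g).and ((hevx g').and (hevx x))))).exists
    exact hr G g e3 hg g' e4 hg' (by rw [e1, e2, hgg]) x e5 hx

/-- **Compactness.** -/
theorem ctree_of_finCW {τ : M → M → A} {k : ℕ} (h : FinCW τ univ k) : CTree τ k := by
  classical
  have h' : ∀ F : Finset M, F.Nonempty → ∃ T : Set (Finset M), F ∈ T ∧
    ∀ Y ∈ T, Y.Nonempty ∧ Y ⊆ F ∧ CutIn τ (F : Set M) (Y : Set M) k ∧
      (2 ≤ Y.card → ∃ Y₁ ∈ T, ∃ Y₂ ∈ T, Disjoint Y₁ Y₂ ∧ ∀ x, x ∈ Y ↔ x ∈ Y₁ ∨ x ∈ Y₂) :=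
    fun F hF => h F (subset_univ _) hF
  have h'' : ∀ F : Finset M, ∃ T : Set (Finset M), F.Nonempty → F ∈ T ∧
    ∀ Y ∈ T, Y.Nonempty ∧ Y ⊆ F ∧ CutIn τ (F : Set M) (Y : Set M) k ∧
      (2 ≤ Y.card → ∃ Y₁ ∈ T, ∃ Y₂ ∈ T, Disjoint Y₁ Y₂ ∧ ∀ x, x ∈ Y ↔ x ∈ Y₁ ∨ x ∈ Y₂) := by
    intro F
    by_cases hF : F.Nonempty
    · obtain ⟨T, hT⟩ := h' F hF
      exact ⟨T, fun _ => hT⟩
    · exact ⟨∅, fun hh => absurd hh hF⟩
  choose T hT using h''
  have hk : Nonempty M → 0 < k := by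
    rintro ⟨x⟩
    obtain ⟨h1, h2⟩ := hT {x} (Finset.singleton_nonempty x)
    obtain ⟨-, -, ⟨⟨r, -⟩, -⟩, -⟩ := h2 _ h1
    exact lt_of_le_of_lt (Nat.zero_le _) (r x).2
  -- points
  have hpt : ∀ (F : Finset M) (y : M), y ∈ F → {y} ∈ T F := by
    intro F y hy
    have hne : F.Nonempty := ⟨y, hy⟩
    obtain ⟨h1, h2⟩ := hT F hne
    obtain ⟨Y, ⟨hYT, hyY⟩, hmin⟩ : ∃ Y, (Y ∈ T F ∧ y ∈ Y) ∧
        ∀ Y', (Y' ∈ T F ∧ y ∈ Y') → Y.card ≤ Y'.card := by
      obtain ⟨Y, hY, hm⟩ := WellFounded.has_min (measure (Finset.card (α := M))).wf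
        {Y | Y ∈ T F ∧ y ∈ Y} ⟨F, h1, hy⟩
      exact ⟨Y, hY, fun Y' hY' => not_lt.1 fun hlt => hm Y' hY' hlt⟩
    obtain ⟨h3, h4, h5, h6⟩ := h2 Y hYT
    by_cases hc : 2 ≤ Y.card
    · obtain ⟨Y₁, hY₁, Y₂, hY₂, hdis, hun⟩ := h6 hc
      have hun' : Y₁ ∪ Y₂ = Y := by
        ext x
        rw [Finset.mem_union, hun]
      have hcc : Y₁.card + Y₂.card = Y.card := by
        rw [← hun', Finset.card_union_of_disjoint hdis]
      have h7 := (h2 Y₁ hY₁).1.card_pos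
      have h8 := (h2 Y₂ hY₂).1.card_pos
      rcases (hun y).1 hyY with hy' | hy'
      · have := hmin Y₁ ⟨hY₁, hy'⟩
        omega
      · have := hmin Y₂ ⟨hY₂, hy'⟩
        omega
    · have hc1 : Y.card = 1 := by
        have := h3.card_pos
        omega
      obtain ⟨z, rfl⟩ := Finset.card_eq_one.1 hc1
      rw [Finset.mem_singleton.1 hyY]
      exact hYT
  refine ⟨fun y => cutK_of_fin_traces hk fun G => ?_, ?_⟩
  · have hne : (insert y G).Nonempty := Finset.insert_nonempty y G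
    obtain ⟨h1, h2⟩ := hT (insert y G) hne
    obtain ⟨-, -, h3, -⟩ := h2 {y} (hpt _ y (Finset.mem_insert_self _ _))
    refine ⟨_, _, ?_, h3, fun x _ => ?_⟩
    · intro x hx
      exact Finset.mem_coe.2 (Finset.mem_insert_of_mem hx)
    · simp
  · intro F hF
    obtain ⟨U, hU⟩ : ∃ U : Ultrafilter (Finset M), (U : Filter (Finset M)) ≤ Filter.atTop :=
      ⟨Ultrafilter.of Filter.atTop, Ultrafilter.of_le _⟩
    have hev : ∀ G : Finset M, ∀ᶠ F in (U : Filter (Finset M)), G ⊆ F := fun G =>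
      hU (Filter.eventually_ge_atTop G)
    refine ⟨{Y | (Y.Nonempty ∧ Y ⊆ F) ∧ ∀ᶠ G in (U : Filter (Finset M)), ∃ Z ∈ T G, F ∩ Z = Y},
      ⟨⟨hF, subset_rfl⟩, ?_⟩, ?_, ?_⟩
    · filter_upwards [hev F] with G hG
      exact ⟨G, (hT G (hF.mono hG)).1, Finset.inter_eq_left.2 hG⟩
    · rintro Y ⟨-, hY⟩
      have hch : ∀ G : Finset M, ∃ Z : Finset M, (∃ Z ∈ T G, F ∩ Z = Y) → Z ∈ T G ∧ F ∩ Z = Y := by
        intro G
        by_cases hG : ∃ Z ∈ T G, F ∩ Z = Y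
        · obtain ⟨Z, hZ⟩ := hG
          exact ⟨Z, fun _ => hZ⟩
        · exact ⟨∅, fun hh => absurd hh hG⟩
      choose Z hZ using hch
      have hZe : ∀ᶠ G in (U : Filter (Finset M)), Z G ∈ T G ∧ F ∩ Z G = Y := by
        filter_upwards [hY] with G hG
        exact hZ G hG
      refine ⟨{x | ∀ᶠ G in (U : Filter (Finset M)), x ∈ Z G}, ?_, fun x hx => ?_⟩
      · refine cutK_of_fin_traces hk fun G₀ => ?_
        have h1 : ∀ᶠ G in (U : Filter (Finset M)), ∀ x ∈ G₀,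
            ((∀ᶠ G' in (U : Filter (Finset M)), x ∈ Z G') ↔ x ∈ Z G) := by
          rw [Filter.eventually_all_finset]
          intro x _
          by_cases hx : ∀ᶠ G' in (U : Filter (Finset M)), x ∈ Z G'
          · filter_upwards [hx] with G hG
            exact ⟨fun _ => hG, fun _ => hx⟩
          · have hx' := Ultrafilter.eventually_not.2 hx
            filter_upwards [hx'] with G hG
            exact ⟨fun h => absurd h hx, fun h => absurd h hG⟩
        obtain ⟨G, e1, e2, e3, e4⟩ := (h1.and (hZe.and ((hev G₀).and (hev F)))).exists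
        obtain ⟨-, -, h5, -⟩ := (hT G (hF.mono e4)).2 (Z G) e2.1
        exact ⟨_, _, fun x hx => e3 hx, h5, fun x hx => e1 x hx⟩
      · constructor
        · intro hx'
          obtain ⟨G, e1, e2⟩ := (Filter.Eventually.and hx' hZe).exists
          rw [← e2.2]
          exact Finset.mem_inter.2 ⟨hx, e1⟩
        · intro hxY
          show ∀ᶠ G in (U : Filter (Finset M)), x ∈ Z G
          filter_upwards [hZe] with G hG
          rw [← hG.2] at hxY
          exact (Finset.mem_inter.1 hxY).2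
    · rintro Y ⟨⟨hne, hYF⟩, hY⟩
      refine ⟨hne, hYF, fun hcard => ?_⟩
      have h1 : ∀ᶠ G in (U : Filter (Finset M)), ∃ q ∈ ((F.powerset ×ˢ F.powerset :
          Finset (Finset M × Finset M)) : Set (Finset M × Finset M)),
          (q.1.Nonempty ∧ q.2.Nonempty ∧ Disjoint q.1 q.2 ∧ q.1 ∪ q.2 = Y) ∧
          (∃ Z ∈ T G, F ∩ Z = q.1) ∧ ∃ Z ∈ T G, F ∩ Z = q.2 := by
        filter_upwards [hY, hev F] with G hG hFG
        have hneG : G.Nonempty := hF.mono hFG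
        obtain ⟨Z₀, hZ₀T, hZ₀Y⟩ := hG
        obtain ⟨Z, ⟨hZT, hZY⟩, hmin⟩ : ∃ Z, (Z ∈ T G ∧ F ∩ Z = Y) ∧
            ∀ Z', (Z' ∈ T G ∧ F ∩ Z' = Y) → Z.card ≤ Z'.card := by
          obtain ⟨Z, hZ, hm⟩ := WellFounded.has_min (measure (Finset.card (α := M))).wf
            {Z | Z ∈ T G ∧ F ∩ Z = Y} ⟨Z₀, hZ₀T, hZ₀Y⟩
          exact ⟨Z, hZ, fun Y' hY' => not_lt.1 fun hlt => hm Y' hY' hlt⟩
        obtain ⟨-, -, -, h6⟩ := (hT G hneG).2 Z hZT
        have hYZ : Y ⊆ Z := by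
          rw [← hZY]
          exact Finset.inter_subset_right
        obtain ⟨Z₁, hZ₁, Z₂, hZ₂, hdis, hun⟩ := h6 (hcard.trans (Finset.card_le_card hYZ))
        have hun' : Z₁ ∪ Z₂ = Z := by
          ext x
          rw [Finset.mem_union, hun]
        have hcc : Z₁.card + Z₂.card = Z.card := by
          rw [← hun', Finset.card_union_of_disjoint hdis]
        have h7 := ((hT G hneG).2 Z₁ hZ₁).1.card_pos
        have h8 := ((hT G hneG).2 Z₂ hZ₂).1.card_pos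
        have hYu : (F ∩ Z₁) ∪ (F ∩ Z₂) = Y := by
          rw [← Finset.inter_union_distrib_left, hun', hZY]
        refine ⟨(F ∩ Z₁, F ∩ Z₂), ?_, ⟨?_, ?_, ?_, hYu⟩, ⟨Z₁, hZ₁, rfl⟩, ⟨Z₂, hZ₂, rfl⟩⟩
        · rw [Finset.mem_coe, Finset.mem_product, Finset.mem_powerset, Finset.mem_powerset]
          exact ⟨Finset.inter_subset_left, Finset.inter_subset_left⟩
        · by_contra hh
          rw [Finset.not_nonempty_iff_eq_empty] at hh
          have h9 : F ∩ Z₂ = Y := by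
            rw [← hYu]
            show F ∩ Z₂ = F ∩ Z₁ ∪ F ∩ Z₂
            rw [show F ∩ Z₁ = ∅ from hh, Finset.empty_union]
          have := hmin Z₂ ⟨hZ₂, h9⟩
          omega
        · by_contra hh
          rw [Finset.not_nonempty_iff_eq_empty] at hh
          have h9 : F ∩ Z₁ = Y := by
            rw [← hYu]
            show F ∩ Z₁ = F ∩ Z₁ ∪ F ∩ Z₂
            rw [show F ∩ Z₂ = ∅ from hh, Finset.union_empty]
          have := hmin Z₁ ⟨hZ₁, h9⟩
          omega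
        · exact Finset.disjoint_of_subset_left Finset.inter_subset_right
            (Finset.disjoint_of_subset_right Finset.inter_subset_right hdis)
      rw [Ultrafilter.eventually_exists_mem_iff (Finset.finite_toSet _)] at h1
      obtain ⟨q, hq, hq'⟩ := h1
      rw [Finset.mem_coe, Finset.mem_product, Finset.mem_powerset, Finset.mem_powerset] at hq
      obtain ⟨G, hG⟩ := hq'.exists
      obtain ⟨⟨a1, a2, a3, a4⟩, -, -⟩ := hG
      refine ⟨q.1, ⟨⟨a1, hq.1⟩, hq'.mono fun G hG => hG.2.1⟩, q.2, ⟨⟨a2, hq.2⟩,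
        hq'.mono fun G hG => hG.2.2⟩, a3, fun x => ?_⟩
      rw [← a4, Finset.mem_union]

end Pool.Agent.Helper97.LO
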