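import Pool.Agent.VCw.CMPc
import Pool.Agent.Helper79.VCM.SP

/-!
# VCW, module RFLc: reflection
-/

set_option autoImplicit false
set_option linter.unusedSectionVars false
set_option linter.unusedVariables false

namespace Pool.Agent.Helper97.LO

open Set Pool.Agent.Helper5 Pool.Agent.Helper5.DU Pool.Agent.Helper6.Str
  Pool.Agent.Helper79.VC Pool.Agent.Helper97.VC Pool.Agent.Helper97.MD Pool.Agent.Helper6.VC
  Pool.Agent.Helper79.VCM

variable {L : FirstOrder.Language.{0, 0}} {M N P : Type} {A Γ : Type}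

private theorem rflc_transfer {τ : M → M → A} {τ' : N → N → A} {f : N → M}
    (hf : Function.Injective f) (hτ : ∀ x y, τ' x y = τ (f x) (f y)) {P' : Set N} {k : ℕ}
    (h : FinCW τ' P' k) (F : Finset M) (hne : F.Nonempty) (hF : ∀ x ∈ F, ∃ y ∈ P', f y = x) :
    ∃ T : Set (Finset M), F ∈ T ∧
    ∀ Y ∈ T, Y.Nonempty ∧ Y ⊆ F ∧ CutIn τ (F : Set M) (Y : Set M) k ∧
      (2 ≤ Y.card → ∃ Y₁ ∈ T, ∃ Y₂ ∈ T, Disjoint Y₁ Y₂ ∧ ∀ x, x ∈ Y ↔ x ∈ Y₁ ∨ x ∈ Y₂) := by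
  classical
  obtain ⟨x₀, hx₀⟩ := hne
  obtain ⟨y₀, hy₀, hfy₀⟩ := hF x₀ hx₀
  have : Nonempty N := ⟨y₀⟩
  let g : M → N := Function.invFun f
  have hg : ∀ y, g (f y) = y := Function.leftInverse_invFun hf
  have hFf : ∀ x ∈ F, f (g x) = x := by
    intro x hx
    obtain ⟨y, -, rfl⟩ := hF x hx
    rw [hg]
  let e : N ↪ M := ⟨f, hf⟩
  obtain ⟨F', hF'⟩ : ∃ F' : Finset N, F'.map e = F := by
    refine ⟨F.image g, ?_⟩
    ext x
    rw [Finset.mem_map]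
    constructor
    · rintro ⟨y, hy, rfl⟩
      obtain ⟨x, hx, rfl⟩ := Finset.mem_image.1 hy
      show f (g x) ∈ F
      rwa [hFf x hx]
    · intro hx
      exact ⟨g x, Finset.mem_image_of_mem g hx, hFf x hx⟩
  subst hF'
  have hm : ∀ (Y : Finset N) (x : M), x ∈ Y.map e ↔ ∃ y ∈ Y, f y = x := fun Y x =>
    Finset.mem_map
  have hmf : ∀ (Y : Finset N) (y : N), f y ∈ Y.map e ↔ y ∈ Y := by
    intro Y y
    rw [hm]
    exact ⟨fun ⟨z, hz, hzy⟩ => hf hzy ▸ hz, fun hy => ⟨y, hy, rfl⟩⟩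
  obtain ⟨T, hT1, hT2⟩ := h F' (by
    intro y hy
    obtain ⟨z, hz, hzy⟩ := hF (f y) ((hmf F' y).2 hy)
    rwa [← hf hzy]) (by
    obtain ⟨y, hy, -⟩ := (hm _ _).1 hx₀
    exact ⟨y, hy⟩)
  refine ⟨(fun Y => Y.map e) '' T, ⟨F', hT1, rfl⟩, ?_⟩
  rintro _ ⟨Y, hY, rfl⟩
  obtain ⟨h1, h2, ⟨⟨r, hr⟩, s, hs⟩, h4⟩ := hT2 Y hY
  refine ⟨h1.map, Finset.map_subset_map.2 h2, ⟨⟨fun x => r (g x), ?_⟩, fun x => s (g x), ?_⟩, ?_⟩
  · intro x hx hxY x' hx' hxY' hrr z hz hzY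
    obtain ⟨a, ha, rfl⟩ := (hm _ _).1 (Finset.mem_coe.1 hx)
    obtain ⟨a', ha', rfl⟩ := (hm _ _).1 (Finset.mem_coe.1 hx')
    obtain ⟨b, hb, rfl⟩ := (hm _ _).1 (Finset.mem_coe.1 hz)
    rw [Finset.mem_coe, hmf] at hxY hxY' hzY
    simp only [hg] at hrr
    rw [← hτ, ← hτ]
    exact hr a ha hxY a' ha' hxY' hrr b hb hzY
  · intro x hx hxY x' hx' hxY' hrr z hz hzY
    obtain ⟨a, ha, rfl⟩ := (hm _ _).1 (Finset.mem_coe.1 hx)
    obtain ⟨a', ha', rfl⟩ := (hm _ _).1 (Finset.mem_coe.1 hx')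
    obtain ⟨b, hb, rfl⟩ := (hm _ _).1 (Finset.mem_coe.1 hz)
    rw [Finset.mem_coe, hmf] at hxY hxY' hzY
    simp only [hg] at hrr
    rw [← hτ, ← hτ]
    exact hs a ha hxY a' ha' hxY' hrr b hb hzY
  · intro hcard
    rw [Finset.card_map] at hcard
    obtain ⟨Y₁, hY₁, Y₂, hY₂, hdis, hun⟩ := h4 hcard
    refine ⟨_, ⟨Y₁, hY₁, rfl⟩, _, ⟨Y₂, hY₂, rfl⟩, (Finset.disjoint_map e).2 hdis, fun x => ?_⟩
    simp only [hm]
    constructor
    · rintro ⟨y, hy, rfl⟩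
      rcases (hun y).1 hy with hy | hy
      · exact Or.inl ⟨y, hy, rfl⟩
      · exact Or.inr ⟨y, hy, rfl⟩
    · rintro (⟨y, hy, rfl⟩ | ⟨y, hy, rfl⟩)
      · exact ⟨y, (hun y).2 (Or.inl hy), rfl⟩
      · exact ⟨y, (hun y).2 (Or.inr hy), rfl⟩

section FN

variable [∀ n, IsEmpty (L.Functions n)] [∀ n, Countable (L.Relations n)]
  {K : Set (L.Structure ℕ)} {δ : Ordinal.{0}} {S : L.Structure M}


theorem spCWPrim_reflect (hL : Ar2 L) (hS : VSt K δ S) (h : ∀ T ∈ K, SpCWPrim T) :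
    SpCWPrim S := by
  classical
  intro P hPinf hPrim
  by_contra hcon
  rw [not_or] at hcon
  obtain ⟨hcon, hconk⟩ := hcon
  push Not at hcon hconk
  obtain ⟨g1, hg1, hg1'⟩ := exists_prim_closure (N := ℕ) (bt S) hPrim
  let e := hPinf.natEmbedding
  have hFk : ∀ k : ℕ, ∃ F : Finset M, ((F : Set M) ⊆ P ∧ F.Nonempty) ∧
      ¬ ∃ T : Set (Finset M), F ∈ T ∧
      ∀ Y ∈ T, Y.Nonempty ∧ Y ⊆ F ∧ CutIn (bt S) (F : Set M) (Y : Set M) k ∧
      (2 ≤ Y.card → ∃ Y₁ ∈ T, ∃ Y₂ ∈ T, Disjoint Y₁ Y₂ ∧ ∀ x, x ∈ Y ↔ x ∈ Y₁ ∨ x ∈ Y₂) := by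
    intro k
    have h1 := hconk k
    by_contra h2
    apply h1
    intro F hF hne
    by_contra h3
    exact h2 ⟨F, ⟨hF, hne⟩, h3⟩
  choose Fk hFkP hFkn using hFk
  have hch : ∀ b : Set (L.Relations 2), ∃ W : Set M, W.Countable ∧
      ∃ (v : ℕ → M) (Q : ℕ → ℕ → List M), Function.Injective v ∧
    (∀ i j, i < j → (v i :: (Q i j ++ [v j])).Nodup ∧
      List.IsChain (gr S P b).Adj (v i :: (Q i j ++ [v j]))) ∧
    (∀ i j k, i < j → v k ∉ Q i j) ∧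
    (∀ i j i' j', i < j → i' < j' → (i, j) ≠ (i', j') → List.Disjoint (Q i j) (Q i' j')) ∧
    (∀ i, v i ∈ W) ∧ ∀ i j, ∀ x ∈ Q i j, x ∈ W := by
    intro b
    obtain ⟨v, Q, h1, h2, h3, h4⟩ := hcon b
    refine ⟨range v ∪ ⋃ i, ⋃ j, {x | x ∈ Q i j}, ?_, v, Q, h1, h2, h3, h4, fun i => Or.inl ⟨i, rfl⟩,
      fun i j x hx => Or.inr ?_⟩
    · exact (countable_range v).union
        (countable_iUnion fun i => countable_iUnion fun j => (List.finite_toSet _).countable)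
    · simp only [mem_iUnion]
      exact ⟨i, j, hx⟩
  choose W hW hW' using hch
  obtain ⟨f, hf, hfK, hfc⟩ := exists_reflect hS.scat hS.lt hS.clos hS.lev
    (fun F => g1 F ∪ ((range (fun n => (e n : M)) ∪ ⋃ k, (Fk k : Set M)) ∪
      ⋃ x ∈ F, ⋃ y ∈ F, W (bt S x y).1))
    (fun F => (hg1 F).union (((countable_range _).union
      (countable_iUnion fun k => (Fk k).finite_toSet.countable)).union
      ((F.finite_toSet.countable).biUnion fun x _ =>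
        (F.finite_toSet.countable).biUnion fun y _ => hW _)))
  have hbt : (fun a b => bt S (f a) (f b)) = bt (pl S f) := by
    funext a b
    rw [bt_pl]
  have hprim : IsPrim (bt (pl S f)) (f ⁻¹' P) := by
    have := hg1' f hf (fun F hF x hx => hfc F hF (Or.inl hx))
    rwa [hbt] at this
  have hinf : (f ⁻¹' P).Infinite := by
    have hsub : range (fun n => (e n : M)) ⊆ range f := fun x hx =>
      hfc ∅ (by simp) (Or.inr (Or.inl (Or.inl hx)))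
    intro hfin
    have h1 : (f '' (f ⁻¹' P)).Finite := hfin.image f
    rw [image_preimage_eq_inter_range] at h1
    have h2 : (range (fun n => (e n : M))).Finite := h1.subset (by
      rintro _ ⟨n, rfl⟩
      exact ⟨(e n).2, hsub ⟨n, rfl⟩⟩)
    exact (infinite_range_of_injective (fun i j hij => e.injective (Subtype.ext hij))) h2
  have hFkr : ∀ k, ∀ x ∈ Fk k, ∃ y ∈ f ⁻¹' P, f y = x := by
    intro k x hx
    obtain ⟨y, hy⟩ := hfc ∅ (by simp) (Or.inr (Or.inl (Or.inr (mem_iUnion.mpr ⟨k, hx⟩))))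
    exact ⟨y, by rw [mem_preimage, hy]; exact (hFkP k).1 hx, hy⟩
  rcases h _ hfK _ hinf hprim with ⟨b, hb⟩ | ⟨k, hk⟩
  · apply hb
    by_cases hocc : ∃ x ∈ f ⁻¹' P, ∃ y ∈ f ⁻¹' P, bt (pl S f) x y = (b, b)
    · obtain ⟨x, hx, y, hy, hxy⟩ := hocc
      rw [bt_pl] at hxy
      obtain ⟨v, Q, h1, h2, h3, h4, h5, h6⟩ := hW' b
      have hWr : W b ⊆ range f := by
        intro w hw
        refine hfc {f x, f y} ?_ (Or.inr (Or.inr ?_))
        · intro a ha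
          simp only [Finset.coe_insert, Finset.coe_singleton, mem_insert_iff,
            mem_singleton_iff] at ha
          rcases ha with rfl | rfl
          · exact mem_range_self _
          · exact mem_range_self _
        · simp only [mem_iUnion]
          refine ⟨f x, by simp, f y, by simp, ?_⟩
          rw [hxy]
          exact hw
      refine hasTK_pull (G := gr S P b) hf ?_ h1 h2 h3 h4 (fun i => hWr (h5 i))
        (fun i j x hx => hWr (h6 i j x hx))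
      rintro x' y' ⟨hne, hx', hy', hbt'⟩
      refine ⟨fun h => hne (by rw [h]), hx', hy', ?_⟩
      rw [bt_pl]
      exact hbt'
    · push Not at hocc
      refine hasTK_of_complete hinf fun x hx y hy hxy => ⟨hxy, hx, hy, hocc x hx y hy⟩
  · exact hFkn k (rflc_transfer hf (fun x y => bt_pl S f x y) hk (Fk k) (hFkP k).2 (hFkr k))

end FN

end Pool.Agent.Helper97.LO
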