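import Pool.Agent.VCw.FDefs

/-!
# VCW, module SNK: the sink of a tree
-/

set_option autoImplicit false
set_option linter.unusedSectionVars false
set_option linter.unusedVariables false

namespace Pool.Agent.Helper97.LO

open Set

variable {M A : Type}

open Classical in
/-- **Sink.** If every `k`-cut splits `F` into two parts one of which is small then `F` is the union
of three small sets. -/
theorem ctree_sink {τ : M → M → A} {k : ℕ} (hT : CTree τ k) {F : Finset M} (hF : F.Nonempty)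
    {p : Finset M → Prop} (hmono : ∀ A B : Finset M, A ⊆ B → p B → p A) (hsing : ∀ x ∈ F, p {x})
    (hp : ∀ C : Set M, CutK τ C k → p (F.filter fun x => x ∈ C) ∨ p (F.filter fun x => x ∉ C)) :
    ∃ A B C : Finset M, p A ∧ p B ∧ p C ∧ ∀ x ∈ F, x ∈ A ∨ x ∈ B ∨ x ∈ C := by
  obtain ⟨T, hFT, hC, hB⟩ := hT.2 F hF
  -- the members and their complements
  have hsplit : ∀ Y ∈ T, p Y ∨ p (F \ Y) := by
    intro Y hY
    obtain ⟨C, hCk, hCY⟩ := hC Y hY
    have hYF := (hB Y hY).2.1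
    have e1 : (F.filter fun x => x ∈ C) = Y := by
      ext x
      rw [Finset.mem_filter]
      exact ⟨fun h => (hCY x h.1).1 h.2, fun h => ⟨hYF h, (hCY x (hYF h)).2 h⟩⟩
    have e2 : (F.filter fun x => x ∉ C) = F \ Y := by
      ext x
      rw [Finset.mem_filter, Finset.mem_sdiff]
      exact ⟨fun h => ⟨h.1, fun h' => h.2 ((hCY x h.1).2 h')⟩,
        fun h => ⟨h.1, fun h' => h.2 ((hCY x h.1).1 h')⟩⟩
    have h := hp C hCk
    rwa [e1, e2] at h
  have hemp : p ∅ := by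
    obtain ⟨x, hx⟩ := hF
    exact hmono ∅ {x} (Finset.empty_subset _) (hsing x hx)
  have hbig : ∃ Y, Y ∈ T ∧ p (F \ Y) := ⟨F, hFT, by rwa [Finset.sdiff_self]⟩
  obtain ⟨Y, ⟨hYT, hY⟩, hmin⟩ : ∃ Y, (Y ∈ T ∧ p (F \ Y)) ∧
      ∀ Y', (Y' ∈ T ∧ p (F \ Y')) → Y.card ≤ Y'.card := by
    obtain ⟨Y, hY, hm⟩ := WellFounded.has_min (measure (Finset.card (α := M))).wf
      {Y | Y ∈ T ∧ p (F \ Y)} hbig
    exact ⟨Y, hY, fun Y' hY' => not_lt.1 fun hlt => hm Y' hY' hlt⟩
  obtain ⟨hne, hYF, hdec⟩ := hB Y hYT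
  by_cases hcard : 2 ≤ Y.card
  · obtain ⟨Y₁, hY₁, Y₂, hY₂, hdis, hun⟩ := hdec hcard
    have hun' : Y₁ ∪ Y₂ = Y := by
      ext x
      rw [Finset.mem_union, hun]
    have hc : Y₁.card + Y₂.card = Y.card := by
      rw [← hun', Finset.card_union_of_disjoint hdis]
    have h1 := (hB Y₁ hY₁).1.card_pos
    have h2 := (hB Y₂ hY₂).1.card_pos
    have hs : ∀ Z ∈ T, Z.card < Y.card → p Z := by
      intro Z hZ hlt
      rcases hsplit Z hZ with h | h
      · exact h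
      · exact absurd (hmin Z ⟨hZ, h⟩) (not_le.2 hlt)
    refine ⟨F \ Y, Y₁, Y₂, hY, hs Y₁ hY₁ (by omega), hs Y₂ hY₂ (by omega), fun x hx => ?_⟩
    by_cases hxY : x ∈ Y
    · exact Or.inr ((hun x).1 hxY)
    · exact Or.inl (Finset.mem_sdiff.2 ⟨hx, hxY⟩)
  · have hc1 : Y.card = 1 := by
      have := hne.card_pos
      omega
    obtain ⟨y, rfl⟩ := Finset.card_eq_one.1 hc1
    refine ⟨F \ {y}, {y}, ∅, hY, hsing y (hYF (Finset.mem_singleton_self y)), hemp,
      fun x hx => ?_⟩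
    by_cases hxY : x = y
    · exact Or.inr (Or.inl (Finset.mem_singleton.2 hxY))
    · exact Or.inl (Finset.mem_sdiff.2 ⟨hx, fun h => hxY (Finset.mem_singleton.1 h)⟩)

end Pool.Agent.Helper97.LO
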