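import Pool.Agent.VCw.FDefs

/-!
# VCW, module FLW: finite linear width implies finite clique-width
-/

set_option autoImplicit false
set_option linter.unusedSectionVars false
set_option linter.unusedVariables false

namespace Pool.Agent.Helper97.LO

open Set Pool.Agent.Helper5 Pool.Agent.Helper5.DU Pool.Agent.Helper6.Str
  Pool.Agent.Helper79.VC Pool.Agent.Helper97.VC Pool.Agent.Helper97.MD Pool.Agent.Helper6.VC

variable {L : FirstOrder.Language.{0, 0}} {M N P : Type} {A Γ : Type}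

private theorem flw_index {α β : Type} (f : α → β) (s : Set α) (hs : s.Finite) {k : ℕ}
    (hk : 0 < k) (h : (f '' s).ncard ≤ k) :
    ∃ r : α → Fin k, ∀ x ∈ s, ∀ x' ∈ s, r x = r x' → f x = f x' := by
  classical
  have hf : (f '' s).Finite := hs.image f
  have hc : hf.toFinset.card ≤ k := by
    rwa [← ncard_eq_toFinset_card _ hf]
  let e := hf.toFinset.equivFin
  refine ⟨fun x => if hx : f x ∈ hf.toFinset then Fin.castLE hc (e ⟨f x, hx⟩) else ⟨0, hk⟩,
    fun x hx x' hx' hxx => ?_⟩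
  have h1 : f x ∈ hf.toFinset := hf.mem_toFinset.2 (mem_image_of_mem f hx)
  have h2 : f x' ∈ hf.toFinset := hf.mem_toFinset.2 (mem_image_of_mem f hx')
  simp only [dif_pos h1, dif_pos h2] at hxx
  have h3 := e.injective (Fin.castLE_injective _ hxx)
  exact congrArg Subtype.val h3

/-- **Finite linear width implies finite clique-width.** -/
theorem FinLin.finCW {τ : M → M → A} {rv : A → A} (hrv : ∀ x y, τ y x = rv (τ x y)) {P : Set M}
    {k : ℕ} (h : FinLin τ P k) : FinCW τ P (k + k) := by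
  classical
  intro F hF hne
  obtain ⟨l, hnd, hl, hcut⟩ := h F hF
  have hk : 0 < k := by
    obtain ⟨x, hx⟩ := hne
    have h1 := (hcut l [] (by simp)).1
    have h2 : 0 < ((fun (x : M) (y : {y // y ∈ ([] : List M)}) => τ x y.1) ''
        {x | x ∈ l}).ncard := by
      rw [ncard_pos ((l.finite_toSet).image _)]
      exact ⟨_, x, (hl x).2 hx, rfl⟩
    omega
  -- the indices of the rows at a cut
  have hrow : ∀ l₁ l₂, l = l₁ ++ l₂ → ∃ r : M → Fin k, ∀ x ∈ l₁, ∀ x' ∈ l₁, r x = r x' →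
      ∀ y ∈ l₂, τ x y = τ x' y := by
    intro l₁ l₂ hll
    obtain ⟨r, hr⟩ := flw_index (fun (x : M) (y : {y // y ∈ l₂}) => τ x y.1) {x | x ∈ l₁}
      l₁.finite_toSet hk (hcut l₁ l₂ hll).1
    exact ⟨r, fun x hx x' hx' hxx y hy => congrFun (hr x hx x' hx' hxx) ⟨y, hy⟩⟩
  have hcol : ∀ l₁ l₂, l = l₁ ++ l₂ → ∃ r : M → Fin k, ∀ y ∈ l₂, ∀ y' ∈ l₂, r y = r y' →
      ∀ x ∈ l₁, τ x y = τ x y' := by
    intro l₁ l₂ hll
    obtain ⟨r, hr⟩ := flw_index (fun (y : M) (x : {x // x ∈ l₁}) => τ x.1 y) {y | y ∈ l₂}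
      l₂.finite_toSet hk (hcut l₁ l₂ hll).2
    exact ⟨r, fun x hx x' hx' hxx y hy => congrFun (hr x hx x' hx' hxx) ⟨y, hy⟩⟩
  have hsw : ∀ {x y y' : M}, τ x y = τ x y' → τ y x = τ y' x := by
    intro x y y' h
    rw [hrv x y, hrv x y', h]
  have hcast : Function.Injective (Fin.castLE (Nat.le_add_right k k)) := Fin.castLE_injective _
  refine ⟨{Y | ∃ l₁ l₂, l = l₁ ++ l₂ ∧ l₂ ≠ [] ∧ Y = l₂.toFinset} ∪ {Y | ∃ y ∈ F, Y = {y}},
    Or.inl ⟨[], l, rfl, ?_, ?_⟩, ?_⟩
  · rintro rfl
    obtain ⟨x, hx⟩ := hne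
    exact absurd ((hl x).2 hx) (by simp)
  · ext x
    rw [List.mem_toFinset, hl]
  rintro Y (⟨l₁, l₂, hll, hl₂, rfl⟩ | ⟨y, hy, rfl⟩)
  · have hdis : ∀ x ∈ l₁, x ∉ l₂ := by
      intro x hx hx'
      rw [hll, List.nodup_append] at hnd
      exact hnd.2.2 x hx x hx' rfl
    have hmem : ∀ x, x ∈ F → x ∉ (l₂.toFinset : Set M) → x ∈ l₁ := by
      intro x hx hx'
      have h1 := (hl x).2 hx
      rw [hll, List.mem_append] at h1
      refine h1.resolve_right fun h2 => hx' ?_
      rw [Finset.mem_coe, List.mem_toFinset]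
      exact h2
    have hmem' : ∀ x, x ∈ (l₂.toFinset : Set M) → x ∈ l₂ := by
      intro x hx
      rwa [Finset.mem_coe, List.mem_toFinset] at hx
    refine ⟨?_, ?_, ⟨?_, ?_⟩, ?_⟩
    · obtain ⟨x, hx⟩ := List.exists_mem_of_ne_nil l₂ hl₂
      exact ⟨x, List.mem_toFinset.2 hx⟩
    · intro x hx
      rw [← hl, hll, List.mem_append]
      exact Or.inr (List.mem_toFinset.1 hx)
    · obtain ⟨r, hr⟩ := hcol l₁ l₂ hll
      refine ⟨fun x => Fin.castLE (Nat.le_add_right k k) (r x), ?_⟩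
      intro x hx hxY x' hx' hxY' hxx g hg hgY
      exact hsw (hr x (hmem' x hxY) x' (hmem' x' hxY') (hcast hxx) g (hmem g hg hgY))
    · obtain ⟨r, hr⟩ := hrow l₁ l₂ hll
      refine ⟨fun x => Fin.castLE (Nat.le_add_right k k) (r x), ?_⟩
      intro g hg hgY g' hg' hgY' hgg x hx hxY
      have h1 := hr g (hmem g hg hgY) g' (hmem g' hg' hgY') (hcast hgg) x (hmem' x hxY)
      rw [hrv g x, hrv g' x, h1]
    · intro hcard
      obtain ⟨y, l₃, rfl⟩ := List.exists_cons_of_ne_nil hl₂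
      have hnd₂ : (y :: l₃).Nodup := by
        rw [hll, List.nodup_append] at hnd
        exact hnd.2.1
      have hy : y ∉ l₃ := (List.nodup_cons.1 hnd₂).1
      refine ⟨{y}, Or.inr ⟨y, ?_, rfl⟩, l₃.toFinset, Or.inl ⟨l₁ ++ [y], l₃, by simp [hll], ?_,
        rfl⟩, ?_, fun x => ?_⟩
      · rw [← hl, hll]
        simp
      · rintro rfl
        simp at hcard
      · rw [Finset.disjoint_singleton_left, List.mem_toFinset]
        exact hy
      · simp
  · have hyl : y ∈ l := (hl y).2 hy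
    obtain ⟨l₁, l₂, hll⟩ := List.append_of_mem hyl
    have hnd' := hnd
    rw [hll, List.nodup_append, List.nodup_cons] at hnd'
    have hmem : ∀ x, x ∈ F → x ∉ (({y} : Finset M) : Set M) → x ∈ l₁ ∨ x ∈ l₂ := by
      intro x hx hx'
      have h1 := (hl x).2 hx
      rw [hll, List.mem_append, List.mem_cons] at h1
      rcases h1 with h1 | h1 | h1
      · exact Or.inl h1
      · exact absurd (by simp [h1]) hx'
      · exact Or.inr h1
    have hkk : 0 < k + k := by omega
    refine ⟨Finset.singleton_nonempty y, Finset.singleton_subset_iff.2 hy,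
      ⟨⟨fun _ => ⟨0, hkk⟩, ?_⟩, ?_⟩, fun hc => ?_⟩
    · intro x _ hxY x' _ hxY' _ g _ _
      rw [Finset.coe_singleton, mem_singleton_iff] at hxY hxY'
      rw [hxY, hxY']
    · obtain ⟨r, hr⟩ := hrow l₁ (y :: l₂) hll
      obtain ⟨s, hs⟩ := hcol (l₁ ++ [y]) l₂ (by simp [hll])
      refine ⟨fun g => finSumFinEquiv (if g ∈ l₁ then Sum.inl (r g) else Sum.inr (s g)), ?_⟩
      intro g hg hgY g' hg' hgY' hgg x _ hxY
      rw [Finset.coe_singleton, mem_singleton_iff] at hxY
      subst hxY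
      have h1 := finSumFinEquiv.injective hgg
      by_cases hgl : g ∈ l₁
      · by_cases hgl' : g' ∈ l₁
        · simp only [if_pos hgl, if_pos hgl', Sum.inl.injEq] at h1
          have h2 := hr g hgl g' hgl' h1 x (by simp)
          rw [hrv g x, hrv g' x, h2]
        · simp only [if_pos hgl, if_neg hgl', reduceCtorEq] at h1
      · by_cases hgl' : g' ∈ l₁
        · simp only [if_neg hgl, if_pos hgl', reduceCtorEq] at h1
        · simp only [if_neg hgl, if_neg hgl', Sum.inr.injEq] at h1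
          exact hs g ((hmem g hg hgY).resolve_left hgl) g' ((hmem g' hg' hgY').resolve_left hgl')
            h1 x (by simp)
    · rw [Finset.card_singleton] at hc
      omega

/-- the hypothesis of the theorem on linear clique-width implies that of the theorem on
clique-width -/
theorem SpLinPrim.spCWPrim {S : L.Structure M} (h : SpLinPrim S) : SpCWPrim S := by
  intro P hP hprim
  rcases h P hP hprim with h | ⟨k, h⟩
  · exact Or.inl h
  · exact Or.inr ⟨k + k, h.finCW (rv := Prod.swap) fun x y => rfl⟩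

end Pool.Agent.Helper97.LO
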